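import Mathlib

namespace Pool.Agent.MP_5387a8_co.H26

open Finset

/-- The sequence `x 0, …, x (n-1)` covers `y` if `y` is a subsequence of it. -/
def Covers {n k : ℕ} (x : Equiv.Perm (Fin n)) (y : Fin k ↪ Fin n) : Prop :=
  ∃ f : Fin k → Fin n, StrictMono f ∧ ∀ i, x (f i) = y i

open Classical in
/-- `P` is a PSCA(n,k,lam). -/
def IsPSCA (n k lam : ℕ) (P : Multiset (Equiv.Perm (Fin n))) : Prop :=
  ∀ y : Fin k ↪ Fin n, P.countP (fun x => Covers x y) = lam

variable {n k : ℕ}

lemma covers_iff (x : Equiv.Perm (Fin n)) (y : Fin k ↪ Fin n) :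
    Covers x y ↔ StrictMono fun i => x.symm (y i) := by
  constructor
  · rintro ⟨f, hf, h⟩
    have : (fun i => x.symm (y i)) = f := by
      funext i; rw [← h i]; simp
    rw [this]; exact hf
  · intro h
    exact ⟨_, h, fun i => by simp⟩

open Classical in
/-- indicator of covering -/
noncomputable def ph (y : Fin k ↪ Fin n) (x : Equiv.Perm (Fin n)) : ℤ :=
  if Covers x y then 1 else 0

lemma ph_nonneg (y : Fin k ↪ Fin n) (x : Equiv.Perm (Fin n)) : 0 ≤ ph y x := by
  unfold ph; split_ifs <;> norm_num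

lemma ph_le_one (y : Fin k ↪ Fin n) (x : Equiv.Perm (Fin n)) : ph y x ≤ 1 := by
  unfold ph; split_ifs <;> norm_num

lemma ph_congr (y : Fin k ↪ Fin n) (x x' : Equiv.Perm (Fin n))
    (h : ∀ i j, x.symm (y i) < x.symm (y j) ↔ x'.symm (y i) < x'.symm (y j)) :
    ph y x = ph y x' := by
  have : Covers x y ↔ Covers x' y := by
    rw [covers_iff, covers_iff]
    constructor
    · intro h1 i j hij; exact (h i j).1 (h1 hij)
    · intro h1 i j hij; exact (h i j).2 (h1 hij)
  unfold ph
  by_cases h0 : Covers x' y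
  · rw [if_pos h0, if_pos (this.2 h0)]
  · rw [if_neg h0, if_neg (fun h1 => h0 (this.1 h1))]

/-- relabelling -/
def act (σ : Equiv.Perm (Fin n)) (y : Fin k ↪ Fin n) : Fin k ↪ Fin n :=
  y.trans σ.symm.toEmbedding

lemma ph_mul (y : Fin k ↪ Fin n) (σ x : Equiv.Perm (Fin n)) :
    ph y (σ * x) = ph (act σ y) x := by
  have : Covers (σ * x) y ↔ Covers x (act σ y) := by
    rw [covers_iff, covers_iff]
    rfl
  unfold ph
  by_cases h0 : Covers x (act σ y)
  · rw [if_pos h0, if_pos (this.2 h0)]
  · rw [if_neg h0, if_neg (fun h1 => h0 (this.1 h1))]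

lemma exists_covers (hk : k ≤ n) (y : Fin k ↪ Fin n) : ∃ x : Equiv.Perm (Fin n), Covers x y := by
  obtain ⟨σ, hσ⟩ := Equiv.Perm.exists_extending_pair (f := Fin.castLE hk) (g := y)
    (Fin.castLE_injective hk) y.injective
  exact ⟨σ, Fin.castLE hk, Fin.strictMono_castLE hk, hσ⟩

lemma sum_ph_eq (y y' : Fin k ↪ Fin n) : ∑ x, ph y x = ∑ x, ph y' x := by
  obtain ⟨σ, hσ⟩ := Equiv.Perm.exists_extending_pair (f := y') (g := y)
    y'.injective y.injective
  have h1 : act σ y = y' := by
    ext i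
    simp only [act, Function.Embedding.trans_apply, Equiv.coe_toEmbedding]
    rw [← hσ i]; simp
  rw [← h1, ← Equiv.sum_comp (Equiv.mulLeft σ) (fun x => ph y x)]
  refine Finset.sum_congr rfl fun x _ => ?_
  simp only [Equiv.coe_mulLeft]
  exact ph_mul y σ x

/-- tuples with a given underlying set -/
noncomputable def YA (k : ℕ) (A : Finset (Fin n)) : Finset (Fin k ↪ Fin n) :=
  univ.filter fun y => univ.map y = A

lemma sum_YA (A : Finset (Fin n)) (hA : A.card = k) (x : Equiv.Perm (Fin n)) :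
    ∑ y ∈ YA k A, ph y x = 1 := by
  classical
  set B : Finset (Fin n) := A.map x.symm.toEmbedding with hB
  have hBc : B.card = k := by rw [hB, card_map, hA]
  let y0 : Fin k ↪ Fin n := (B.orderEmbOfFin hBc).toEmbedding.trans x.toEmbedding
  have hy0 : y0 ∈ YA k A := by
    simp only [YA, mem_filter, mem_univ, true_and, y0]
    rw [← Finset.map_map, map_orderEmbOfFin_univ, hB, Finset.map_map]
    ext a; simp
  rw [Finset.sum_eq_single_of_mem y0 hy0]
  · have : Covers x y0 := ⟨B.orderEmbOfFin hBc, (B.orderEmbOfFin hBc).strictMono, fun i => rfl⟩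
    simp [ph, this]
  · intro y hy hne
    unfold ph
    rw [if_neg]
    intro hc
    apply hne
    rw [covers_iff] at hc
    have hmem : ∀ i, x.symm (y i) ∈ B := by
      intro i
      rw [hB]
      refine mem_map.2 ⟨y i, ?_, rfl⟩
      simp only [YA, mem_filter, mem_univ, true_and] at hy
      rw [← hy]; exact mem_map.2 ⟨i, mem_univ _, rfl⟩
    have := orderEmbOfFin_unique hBc hmem hc
    ext i
    have h2 := congrFun this i
    simp only [y0, Function.Embedding.trans_apply, Equiv.coe_toEmbedding,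
      RelEmbedding.coe_toEmbedding]
    rw [← h2]; simp

lemma card_YA (A : Finset (Fin n)) (hA : A.card = k) : (YA k A).card ≤ k.factorial := by
  classical
  have h1 : Fintype.card (Fin k ↪ A) = k.factorial := by
    rw [Fintype.card_embedding_eq]; simp [hA, Nat.descFactorial_self]
  rw [← h1, ← Fintype.card_coe]
  refine Fintype.card_le_of_injective (fun y => (⟨fun i => ⟨y.1 i, ?_⟩, ?_⟩ : Fin k ↪ A)) ?_
  · have := y.2
    simp only [YA, mem_filter, mem_univ, true_and] at this
    exact this.subset (mem_map.2 ⟨i, mem_univ _, rfl⟩)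
  · intro i j h
    exact y.1.injective (congrArg Subtype.val h)
  · intro y y' h
    ext i
    have := congrArg (fun e : Fin k ↪ A => ((e i : A) : Fin n)) h
    simpa using congrArg Fin.val this

/-- height function: `S` first in the order of `x`, then the rest in the natural order -/
def ht (S : Finset (Fin n)) (x : Equiv.Perm (Fin n)) (a : Fin n) : ℕ :=
  if a ∈ S then (x.symm a : ℕ) else n + a

lemma ht_inj (S : Finset (Fin n)) (x : Equiv.Perm (Fin n)) : Function.Injective (ht S x) := by
  intro a b h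
  unfold ht at h
  have h1 := (x.symm a).2
  have h2 := (x.symm b).2
  split_ifs at h with ha hb hb
  · exact x.symm.injective (Fin.ext h)
  · omega
  · omega
  · exact Fin.ext (by omega)

/-- the permutation listing the symbols by increasing height -/
def mix (S : Finset (Fin n)) (x : Equiv.Perm (Fin n)) : Equiv.Perm (Fin n) :=
  Tuple.sort (ht S x)

lemma mix_lt (S : Finset (Fin n)) (x : Equiv.Perm (Fin n)) (a b : Fin n) :
    (mix S x).symm a < (mix S x).symm b ↔ ht S x a < ht S x b := by
  have hm : StrictMono (ht S x ∘ mix S x) :=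
    (Tuple.monotone_sort (ht S x)).strictMono_of_injective
      ((ht_inj S x).comp (mix S x).injective)
  rw [← hm.lt_iff_lt]
  simp

lemma ht_lt_iff (S : Finset (Fin n)) (x : Equiv.Perm (Fin n)) (a b : Fin n) :
    ht S x a < ht S x b ↔
      (a ∈ S ∧ b ∈ S ∧ x.symm a < x.symm b) ∨ (a ∈ S ∧ b ∉ S) ∨ (a ∉ S ∧ b ∉ S ∧ a < b) := by
  unfold ht
  have h1 := (x.symm a).2
  have h2 := (x.symm b).2
  by_cases ha : a ∈ S <;> by_cases hb : b ∈ S <;> simp [ha, hb] <;> omega

/-- Moebius difference -/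
def Dl (S : Finset (Fin n)) (F : Finset (Fin n) → ℤ) : ℤ :=
  ∑ T ∈ S.powerset, (-1) ^ (S.card + T.card) * F T

lemma Dl_insert (S : Finset (Fin n)) (a : Fin n) (ha : a ∉ S) (F : Finset (Fin n) → ℤ) :
    Dl (insert a S) F = Dl S (fun T => F (insert a T)) - Dl S F := by
  unfold Dl
  rw [sum_powerset_insert ha, card_insert_of_notMem ha, sub_eq_neg_add, ← sum_neg_distrib]
  congr 1
  · refine sum_congr rfl fun T _ => ?_
    ring
  · refine sum_congr rfl fun T hT => ?_
    have : a ∉ T := fun h => ha (mem_powerset.1 hT h)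
    rw [card_insert_of_notMem this]
    ring

lemma sum_Dl (A : Finset (Fin n)) : ∀ F : Finset (Fin n) → ℤ,
    ∑ S ∈ A.powerset, Dl S F = F A := by
  induction A using Finset.induction_on with
  | empty => intro F; simp [Dl]
  | insert a A ha ih =>
    intro F
    rw [sum_powerset_insert ha]
    have : ∑ S ∈ A.powerset, Dl (insert a S) F
        = ∑ S ∈ A.powerset, (Dl S (fun T => F (insert a T)) - Dl S F) := by
      refine sum_congr rfl fun S hS => Dl_insert S a (fun h => ha (mem_powerset.1 hS h)) F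
    rw [this, sum_sub_distrib, ih, ih]
    ring

/-- small sets -/
def Sm (n k : ℕ) : Finset (Finset (Fin n)) := univ.filter fun S => S.card ≤ k

lemma key1 (y : Fin k ↪ Fin n) (x : Equiv.Perm (Fin n)) :
    ∑ S ∈ Sm n k, Dl S (fun T => ph y (mix T x)) = ph y x := by
  classical
  set A : Finset (Fin n) := univ.map y with hA
  have hsub : A.powerset ⊆ Sm n k := by
    intro S hS
    simp only [Sm, mem_filter, mem_univ, true_and]
    calc S.card ≤ A.card := card_le_card (mem_powerset.1 hS)
      _ = k := by simp [hA]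
  rw [← sum_subset hsub, sum_Dl]
  · refine ph_congr _ _ _ fun i j => ?_
    have hi : y i ∈ A := mem_map.2 ⟨i, mem_univ _, rfl⟩
    have hj : y j ∈ A := mem_map.2 ⟨j, mem_univ _, rfl⟩
    rw [mix_lt, ht_lt_iff]
    simp [hi, hj]
  · intro S _ hS
    rw [mem_powerset, not_subset] at hS
    obtain ⟨v, hvS, hvA⟩ := hS
    rw [← insert_erase hvS, Dl_insert _ _ (notMem_erase v S)]
    have : (fun T => ph y (mix (insert v T) x)) = fun T => ph y (mix T x) := by
      funext T
      refine ph_congr _ _ _ fun i j => ?_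
      have hi : y i ≠ v := fun h => hvA (h ▸ mem_map.2 ⟨i, mem_univ _, rfl⟩)
      have hj : y j ≠ v := fun h => hvA (h ▸ mem_map.2 ⟨j, mem_univ _, rfl⟩)
      rw [mix_lt, mix_lt, ht_lt_iff, ht_lt_iff]
      simp [hi, hj]
    rw [this, sub_self]

lemma mix_congr (T A : Finset (Fin n)) (hT : T ⊆ A) (y : Fin k ↪ Fin n) (hy : y ∈ YA k A)
    (x x' : Equiv.Perm (Fin n)) (hx : Covers x y) (hx' : Covers x' y)
    {m : ℕ} (y0 : Fin m ↪ Fin n) : ph y0 (mix T x) = ph y0 (mix T x') := by
  refine ph_congr _ _ _ fun i j => ?_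
  rw [mix_lt, mix_lt, ht_lt_iff, ht_lt_iff]
  have hyA : univ.map y = A := by simpa [YA] using hy
  rw [covers_iff] at hx hx'
  have : ∀ a ∈ T, ∀ b ∈ T, (x.symm a < x.symm b ↔ x'.symm a < x'.symm b) := by
    intro a ha b hb
    obtain ⟨s, -, rfl⟩ := mem_map.1 (hyA.symm ▸ hT ha)
    obtain ⟨t, -, rfl⟩ := mem_map.1 (hyA.symm ▸ hT hb)
    exact hx.lt_iff_lt.trans hx'.lt_iff_lt.symm
  by_cases ha : y0 i ∈ T <;> by_cases hb : y0 j ∈ T <;> simp [ha, hb]
  exact this _ ha _ hb

lemma choose_mul_fact (hk : k ≤ n) (s : ℕ) (hs : s ≤ k) :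
    n.choose s * k.factorial ≤ n ^ k := by
  have h1 : (k - (k - s)).factorial * k.descFactorial (k - s) = k.factorial :=
    Nat.factorial_mul_descFactorial (Nat.sub_le k s)
  have h2 : k - (k - s) = s := by omega
  rw [h2] at h1
  calc n.choose s * k.factorial = (s.factorial * n.choose s) * k.descFactorial (k - s) := by
        rw [← h1]; ring
    _ = n.descFactorial s * k.descFactorial (k - s) := by
        rw [Nat.descFactorial_eq_factorial_mul_choose n s]
    _ ≤ n ^ s * n ^ (k - s) := by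
        refine Nat.mul_le_mul (Nat.descFactorial_le_pow _ _) ?_
        exact (Nat.descFactorial_le_pow _ _).trans (Nat.pow_le_pow_left hk _)
    _ = n ^ k := by rw [← pow_add]; congr 1; omega

lemma card_Sm (hk : k ≤ n) : (Sm n k).card * k.factorial ≤ (k + 1) * n ^ k := by
  have h1 : Sm n k = (range (k + 1)).biUnion fun s => powersetCard s univ := by
    ext S
    simp [Sm, mem_powersetCard]
  have h2 : (Sm n k).card ≤ ∑ s ∈ range (k + 1), n.choose s := by
    rw [h1]
    refine card_biUnion_le.trans (le_of_eq ?_)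
    refine sum_congr rfl fun s _ => ?_
    simp
  calc (Sm n k).card * k.factorial ≤ (∑ s ∈ range (k + 1), n.choose s) * k.factorial :=
        Nat.mul_le_mul_right _ h2
    _ = ∑ s ∈ range (k + 1), n.choose s * k.factorial := by rw [sum_mul]
    _ ≤ ∑ _s ∈ range (k + 1), n ^ k :=
        sum_le_sum fun s hs => choose_mul_fact hk s (Nat.lt_succ_iff.1 (mem_range.1 hs))
    _ = (k + 1) * n ^ k := by simp

/-- The local decoder. -/
theorem decoder (hk : k ≤ n) :
    ∃ (ι : Type) (J : Finset ι) (ε : ι → ℤ) (yy : ι → (Fin k ↪ Fin n))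
      (q : ι → Equiv.Perm (Fin n)),
      (∀ j, |ε j| ≤ 1) ∧ J.card ≤ (4 * n) ^ k ∧
      ∀ x (y0 : Fin k ↪ Fin n), ∑ j ∈ J, ε j * ph (yy j) x * ph y0 (q j) = ph y0 x := by
  classical
  have hA : ∀ T : Finset (Fin n), ∃ A : Finset (Fin n), A.card = k ∧ (T.card ≤ k → T ⊆ A) := by
    intro T
    by_cases hT : T.card ≤ k
    · obtain ⟨A, h1, h2⟩ := Finset.exists_superset_card_eq hT (by simpa using hk)
      exact ⟨A, h2, fun _ => h1⟩
    · obtain ⟨A, h1, h2⟩ := Finset.exists_superset_card_eq (s := (∅ : Finset (Fin n)))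
        (n := k) (by simp) (by simpa using hk)
      exact ⟨A, h2, fun h => absurd h hT⟩
  choose A hAc hAs using hA
  choose rep hrep using exists_covers hk
  refine ⟨(Σ _ : Finset (Fin n), Σ _ : Finset (Fin n), (Fin k ↪ Fin n)),
    (Sm n k).sigma fun S => S.powerset.sigma fun T => YA k (A T),
    fun j => (-1) ^ (j.1.card + j.2.1.card), fun j => j.2.2,
    fun j => mix j.2.1 (rep j.2.2), fun j => by simp, ?_, ?_⟩
  · rw [card_sigma]
    calc ∑ S ∈ Sm n k, (S.powerset.sigma fun T => YA k (A T)).card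
        ≤ ∑ _S ∈ Sm n k, 2 ^ k * k.factorial := by
          refine sum_le_sum fun S hS => ?_
          have hS' : S.card ≤ k := by simpa [Sm] using hS
          rw [card_sigma]
          calc ∑ T ∈ S.powerset, (YA k (A T)).card ≤ ∑ _T ∈ S.powerset, k.factorial :=
                sum_le_sum fun T _ => card_YA _ (hAc T)
            _ = 2 ^ S.card * k.factorial := by simp
            _ ≤ 2 ^ k * k.factorial :=
                Nat.mul_le_mul_right _ (Nat.pow_le_pow_right (by norm_num) hS')
      _ = 2 ^ k * ((Sm n k).card * k.factorial) := by simp; ring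
      _ ≤ 2 ^ k * ((k + 1) * n ^ k) := Nat.mul_le_mul_left _ (card_Sm hk)
      _ ≤ 2 ^ k * (2 ^ k * n ^ k) :=
          Nat.mul_le_mul_left _ (Nat.mul_le_mul_right _ (Nat.succ_le_of_lt Nat.lt_two_pow_self))
      _ = (4 * n) ^ k := by
          rw [mul_pow, show (4 : ℕ) = 2 * 2 by norm_num, mul_pow]; ring
  · intro x y0
    rw [← key1 y0 x, sum_sigma]
    refine sum_congr rfl fun S hS => ?_
    have hS' : S.card ≤ k := by simpa [Sm] using hS
    rw [sum_sigma, Dl]
    refine sum_congr rfl fun T hT => ?_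
    have hTA : T ⊆ A T := hAs T ((card_le_card (mem_powerset.1 hT)).trans hS')
    have : ∀ y ∈ YA k (A T), (-1) ^ (S.card + T.card) * ph y x * ph y0 (mix T (rep y))
        = ph y x * ((-1) ^ (S.card + T.card) * ph y0 (mix T x)) := by
      intro y hy
      by_cases hc : Covers x y
      · rw [mix_congr T (A T) hTA y hy (rep y) x (hrep y) hc y0]; ring
      · simp [ph, hc]
    rw [sum_congr rfl this, ← sum_mul, sum_YA _ (hAc T), one_mul]

/-- the uniform coverage -/
lemma exists_KF (hk : k ≤ n) : ∃ K : ℕ, 0 < K ∧ ∀ y : Fin k ↪ Fin n,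
    (K : ℤ) * ∑ x, ph y x = Fintype.card (Equiv.Perm (Fin n)) := by
  obtain ⟨A, -, hA⟩ := Finset.exists_superset_card_eq (s := (∅ : Finset (Fin n)))
    (n := k) (by simp) (by simpa using hk)
  have h : ∀ y : Fin k ↪ Fin n,
      ((YA k A).card : ℤ) * ∑ x, ph y x = Fintype.card (Equiv.Perm (Fin n)) := by
    intro y
    have h1 : ∑ x : Equiv.Perm (Fin n), ∑ y' ∈ YA k A, ph y' x
        = Fintype.card (Equiv.Perm (Fin n)) := by
      simp [sum_YA A hA]
    rw [← h1, sum_comm, sum_congr rfl fun y' _ => sum_ph_eq y' y]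
    simp
  refine ⟨(YA k A).card, ?_, h⟩
  rcases Nat.eq_zero_or_pos (YA k A).card with h0 | h0
  · have := h ⟨Fin.castLE hk, Fin.castLE_injective hk⟩
    rw [h0] at this
    have h2 : 0 < Fintype.card (Equiv.Perm (Fin n)) := Fintype.card_pos
    simp only [Nat.cast_zero, zero_mul] at this
    omega
  · exact h0

end Pool.Agent.MP_5387a8_co.H26
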