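import Pool.Agent.MP_5387a8_co.H26.Basic

namespace Pool.Agent.MP_5387a8_co.H26

open Finset

variable {n k : ℕ}

open Classical in
/-- coverage vectors of multisets -/
def Rl (v : (Fin k ↪ Fin n) → ℤ) : Prop :=
  ∃ P : Multiset (Equiv.Perm (Fin n)), ∀ y, (P.countP (fun x => Covers x y) : ℤ) = v y

lemma Rl.zero : Rl (fun _ : Fin k ↪ Fin n => (0 : ℤ)) := ⟨0, fun y => by simp⟩

lemma Rl.add {u v : (Fin k ↪ Fin n) → ℤ} (hu : Rl u) (hv : Rl v) : Rl (fun y => u y + v y) := by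
  obtain ⟨P, hP⟩ := hu
  obtain ⟨Q, hQ⟩ := hv
  exact ⟨P + Q, fun y => by rw [Multiset.countP_add]; push_cast; rw [hP, hQ]⟩

lemma Rl.congr {u v : (Fin k ↪ Fin n) → ℤ} (hu : Rl u) (h : ∀ y, u y = v y) : Rl v := by
  have : u = v := funext h
  rwa [← this]

lemma Rl.single (x : Equiv.Perm (Fin n)) : Rl (fun y : Fin k ↪ Fin n => ph y x) := by
  refine ⟨{x}, fun y => ?_⟩
  rw [← Multiset.cons_zero, Multiset.countP_cons]
  by_cases h : Covers x y <;> simp [ph, h]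

lemma Rl.nsmul (x : Equiv.Perm (Fin n)) (m : ℕ) : Rl (fun y : Fin k ↪ Fin n => m * ph y x) := by
  induction m with
  | zero => exact Rl.zero.congr fun y => by simp
  | succ m ih => exact (ih.add (Rl.single x)).congr fun y => by push_cast; ring

lemma Rl.zsmul (x : Equiv.Perm (Fin n)) (m : ℤ) (hm : 0 ≤ m) :
    Rl (fun y : Fin k ↪ Fin n => m * ph y x) := by
  lift m to ℕ using hm
  exact Rl.nsmul x m

lemma Rl.sum {ι : Type} (J : Finset ι) (v : ι → (Fin k ↪ Fin n) → ℤ) (h : ∀ j ∈ J, Rl (v j)) :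
    Rl (fun y => ∑ j ∈ J, v j y) := by
  classical
  induction J using Finset.induction_on with
  | empty => exact Rl.zero.congr fun y => by simp
  | insert a J ha ih =>
    refine ((h a (mem_insert_self _ _)).add (ih fun j hj => h j (mem_insert_of_mem hj))).congr ?_
    intro y
    rw [sum_insert ha]

lemma Rl.psca {lam : ℕ} (h : Rl (fun _ : Fin k ↪ Fin n => (lam : ℤ))) :
    ∃ P, IsPSCA n k lam P := by
  obtain ⟨P, hP⟩ := h
  refine ⟨P, fun y => ?_⟩
  have := hP y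
  simp only at this
  exact_mod_cast this

/-- `v` is a signed sum of `m` terms `s * ph · x`, `|s| ≤ 1`. -/
def Sg : ℕ → ((Fin k ↪ Fin n) → ℤ) → Prop
  | 0, v => ∀ y, v y = 0
  | m + 1, v => ∃ (s : ℤ) (x : Equiv.Perm (Fin n)), |s| ≤ 1 ∧ Sg m (fun y => v y - s * ph y x)

lemma Sg.congr {m : ℕ} {u v : (Fin k ↪ Fin n) → ℤ} (hu : Sg m u) (h : ∀ y, u y = v y) :
    Sg m v := by
  have : u = v := funext h
  rwa [← this]

lemma Sg.add {a : ℕ} : ∀ {b : ℕ} {u v : (Fin k ↪ Fin n) → ℤ}, Sg a u → Sg b v →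
    Sg (a + b) (fun y => u y + v y)
  | 0, _, _, hu, hv => hu.congr fun y => by rw [hv y, add_zero]
  | b + 1, _, _, hu, ⟨s, x, hs, hv⟩ =>
      ⟨s, x, hs, (Sg.add hu hv).congr fun y => by ring⟩

lemma Sg.zero : ∀ m : ℕ, Sg m (fun _ : Fin k ↪ Fin n => (0 : ℤ))
  | 0 => fun _ => rfl
  | m + 1 => ⟨0, 1, by simp, (Sg.zero m).congr fun y => by simp⟩

lemma Sg.mono {a b : ℕ} {u : (Fin k ↪ Fin n) → ℤ} (hu : Sg a u) (h : a ≤ b) : Sg b u := by
  obtain ⟨c, rfl⟩ := Nat.exists_eq_add_of_le h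
  exact (hu.add (Sg.zero c)).congr fun y => by simp

lemma Sg.nsmul (s : ℤ) (hs : |s| ≤ 1) (x : Equiv.Perm (Fin n)) :
    ∀ m : ℕ, Sg m (fun y : Fin k ↪ Fin n => m * s * ph y x)
  | 0 => fun y => by simp
  | m + 1 => ⟨s, x, hs, (Sg.nsmul s hs x m).congr fun y => by push_cast; ring⟩

lemma Sg.zsmul (t : ℤ) (x : Equiv.Perm (Fin n)) :
    Sg t.natAbs (fun y : Fin k ↪ Fin n => t * ph y x) := by
  refine (Sg.nsmul t.sign ?_ x t.natAbs).congr fun y => ?_
  · rcases lt_trichotomy t 0 with h | h | h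
    · simp [Int.sign_eq_neg_one_of_neg h]
    · simp [h]
    · simp [Int.sign_eq_one_of_pos h]
  · rw [mul_comm (t.natAbs : ℤ), Int.sign_mul_natAbs]

lemma Sg.sum {ι : Type} (J : Finset ι) (t : ι → ℤ) (q : ι → Equiv.Perm (Fin n)) :
    Sg (∑ j ∈ J, (t j).natAbs) (fun y : Fin k ↪ Fin n => ∑ j ∈ J, t j * ph y (q j)) := by
  classical
  induction J using Finset.induction_on with
  | empty => intro y; simp
  | insert a J ha ih =>
    rw [sum_insert ha]
    exact ((Sg.zsmul (t a) (q a)).add ih).congr fun y => by rw [sum_insert ha]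

/-- absorbers -/
def Ab (U : (Fin k ↪ Fin n) → ℤ) : Prop :=
  ∀ (s : ℤ) (x : Equiv.Perm (Fin n)), |s| ≤ 1 → Rl (fun y => U y + s * ph y x)

lemma absorb : ∀ (L : ℕ) (U : ℕ → (Fin k ↪ Fin n) → ℤ) (_ : ∀ l, Ab (U l))
    (v : (Fin k ↪ Fin n) → ℤ) (_ : Sg L v), Rl (fun y => ∑ l ∈ range L, U l y + v y)
  | 0, _, _, _, hv => Rl.zero.congr fun y => by simp [hv y]
  | L + 1, U, hU, _, ⟨s, x, hs, hv⟩ =>
      ((absorb L U hU _ hv).add (hU L s x hs)).congr fun y => by rw [sum_range_succ]; ring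

section dec

variable {ι : Type} {J : Finset ι} {ε : ι → ℤ} {yy : ι → (Fin k ↪ Fin n)}
  {q : ι → Equiv.Perm (Fin n)}

/-- vectors reproduced by the decoder -/
def Cs (J : Finset ι) (ε : ι → ℤ) (yy : ι → (Fin k ↪ Fin n)) (q : ι → Equiv.Perm (Fin n))
    (v : (Fin k ↪ Fin n) → ℤ) : Prop :=
  ∀ y0, ∑ j ∈ J, ε j * v (yy j) * ph y0 (q j) = v y0

lemma Cs.lin {κ : Type} (T : Finset κ) (c : κ → ℤ) (v : κ → (Fin k ↪ Fin n) → ℤ)
    (h : ∀ i ∈ T, Cs J ε yy q (v i)) : Cs J ε yy q (fun y => ∑ i ∈ T, c i * v i y) := by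
  intro y0
  beta_reduce
  rw [← sum_congr rfl fun i hi => congrArg (c i * ·) (h i hi y0)]
  simp only [mul_sum, sum_mul]
  rw [sum_comm]
  exact sum_congr rfl fun _ _ => sum_congr rfl fun _ _ => by ring

lemma Cs.const (hk : k ≤ n) (h : ∀ x, Cs J ε yy q (fun y => ph y x)) (c : ℤ) :
    Cs J ε yy q (fun _ => c) := by
  intro y0
  have h1 := Cs.lin univ (fun _ => c) (fun x y => ph y x) (fun x _ => h x) y0
  simp only [← mul_sum] at h1
  obtain ⟨K, hK, hKF⟩ := exists_KF hk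
  have hF : ∑ x, ph y0 x ≠ 0 := by
    intro h0
    have := hKF y0
    rw [h0, mul_zero] at this
    have h2 : 0 < Fintype.card (Equiv.Perm (Fin n)) := Fintype.card_pos
    omega
  apply mul_right_cancel₀ hF
  rw [← h1, sum_mul]
  refine sum_congr rfl fun j _ => ?_
  rw [sum_ph_eq (yy j) y0]; ring

lemma Cs.sg (hε : ∀ j, |ε j| ≤ 1) {v : (Fin k ↪ Fin n) → ℤ} (hv : Cs J ε yy q v) (L : ℕ)
    (hL : ∀ y, (J.card : ℤ) * |v y| ≤ L) : Sg L v := by
  refine ((Sg.sum J (fun j => ε j * v (yy j)) q).congr hv).mono ?_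
  rcases J.eq_empty_or_nonempty with h0 | h0
  · simp [h0]
  have hc : (0 : ℤ) < J.card := by exact_mod_cast h0.card_pos
  have : (J.card : ℤ) * ((∑ j ∈ J, (ε j * v (yy j)).natAbs : ℕ) : ℤ) ≤ J.card * L := by
    push_cast
    rw [mul_sum]
    calc ∑ j ∈ J, (J.card : ℤ) * (|ε j * v (yy j)|) ≤ ∑ _j ∈ J, (L : ℤ) := by
          refine sum_le_sum fun j _ => le_trans ?_ (hL (yy j))
          rw [abs_mul]
          have := mul_le_mul_of_nonneg_right (hε j) (abs_nonneg (v (yy j)))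
          nlinarith
      _ = J.card * L := by simp
  exact_mod_cast le_of_mul_le_mul_left this hc

/-- translated unit -/
noncomputable def Un (J : Finset ι) (q : ι → Equiv.Perm (Fin n)) (σ : Equiv.Perm (Fin n))
    (y : Fin k ↪ Fin n) : ℤ := ∑ j ∈ J, ph y (σ * q j)

lemma ab_Un (hε : ∀ j, |ε j| ≤ 1) (h : ∀ x, Cs J ε yy q (fun y => ph y x))
    (σ : Equiv.Perm (Fin n)) : Ab (Un (k := k) J q σ) := by
  intro s x hs
  refine (Rl.sum J (fun j y => (1 + s * ε j * ph (yy j) (σ⁻¹ * x)) * ph y (σ * q j))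
    fun j _ => Rl.zsmul _ _ ?_).congr fun y => ?_
  · have h1 := ph_nonneg (yy j) (σ⁻¹ * x)
    have h2 := ph_le_one (yy j) (σ⁻¹ * x)
    have h3 : |s * ε j| ≤ 1 := by
      rw [abs_mul]
      nlinarith [hε j, abs_nonneg s, abs_nonneg (ε j)]
    have h4 := (abs_le.1 h3).1
    nlinarith
  · have h1 := h (σ⁻¹ * x) (act σ y)
    simp only [← ph_mul, mul_inv_cancel_left] at h1
    rw [← h1, Un, mul_sum, ← sum_add_distrib]
    exact sum_congr rfl fun j _ => by ring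

end dec

/-- greedy balancing -/
lemma balance {G Y : Type} [Fintype G] [Nonempty G] [Fintype Y] (d : G → Y → ℝ) (B : ℝ)
    (h0 : ∀ y, ∑ σ, d σ y = 0) (hB : ∀ σ, ∑ y, d σ y ^ 2 ≤ B) :
    ∀ L : ℕ, ∃ σ : ℕ → G, ∑ y, (∑ l ∈ range L, d (σ l) y) ^ 2 ≤ L * B := by
  intro L
  induction L with
  | zero => exact ⟨fun _ => Classical.arbitrary G, by simp⟩
  | succ L ih =>
    obtain ⟨σ, hσ⟩ := ih
    set S : Y → ℝ := fun y => ∑ l ∈ range L, d (σ l) y with hS
    have h1 : ∑ τ : G, ∑ y, S y * d τ y = ∑ _τ : G, (0 : ℝ) := by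
      rw [sum_comm]
      simp only [← mul_sum, h0]
      simp
    obtain ⟨τ, -, hτ⟩ := exists_le_of_sum_le univ_nonempty h1.le
    refine ⟨fun l => if l = L then τ else σ l, ?_⟩
    have h2 : ∀ y, ∑ l ∈ range (L + 1), d (if l = L then τ else σ l) y = S y + d τ y := by
      intro y
      rw [sum_range_succ, if_pos rfl]
      congr 1
      exact sum_congr rfl fun l hl => by rw [if_neg (mem_range.1 hl).ne]
    simp only [h2]
    have h3 : ∑ y, (S y + d τ y) ^ 2 = ∑ y, S y ^ 2 + 2 * ∑ y, S y * d τ y + ∑ y, d τ y ^ 2 := by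
      rw [mul_sum, ← sum_add_distrib, ← sum_add_distrib]
      exact sum_congr rfl fun y _ => by ring
    rw [h3]
    push_cast
    nlinarith [hB τ]

theorem eventually_exists (hk1 : 1 ≤ k) (hk : k ≤ n) (lam : ℕ) (hl : (4 * n) ^ (6 * k) ≤ lam) :
    ∃ P, IsPSCA n k lam P := by
  classical
  obtain ⟨ι, J, ε, yy, q, hε, hJ, hdec⟩ := decoder hk
  obtain ⟨K, hK, hKF⟩ := exists_KF hk
  have hcs : ∀ x, Cs J ε yy q (fun y => ph y x) := fun x y0 => hdec x y0
  set ρ := J.card with hρ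
  let y1 : Fin k ↪ Fin n := ⟨Fin.castLE hk, Fin.castLE_injective hk⟩
  have hρ0 : 0 < ρ := by
    rcases J.eq_empty_or_nonempty with h0 | h0
    · obtain ⟨x, hx⟩ := exists_covers hk y1
      have := hdec x y1
      simp [h0, ph, hx] at this
    · exact h0.card_pos
  set Ny := Fintype.card (Fin k ↪ Fin n) with hNy
  have hNy1 : 1 ≤ Ny := Fintype.card_pos_iff.2 ⟨y1⟩
  have hNy2 : Ny ≤ n ^ k := by
    rw [hNy, Fintype.card_embedding_eq]; simpa using Nat.descFactorial_le_pow n k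
  set L := K * lam / ρ with hL
  set r := K * lam % ρ with hr
  have hLr : ρ * L + r = K * lam := Nat.div_add_mod _ _
  have hrρ : r < ρ := Nat.mod_lt _ hρ0
  have hLb : 4 * ρ ^ 4 * Ny ≤ L := by
    rw [hL, Nat.le_div_iff_mul_le hρ0]
    calc 4 * ρ ^ 4 * Ny * ρ = 4 * Ny * ρ ^ 5 := by ring
      _ ≤ 4 ^ k * n ^ k * ((4 * n) ^ k) ^ 5 := by
          refine Nat.mul_le_mul (Nat.mul_le_mul ?_ hNy2) (Nat.pow_le_pow_left hJ 5)
          calc 4 = 4 ^ 1 := by norm_num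
            _ ≤ 4 ^ k := Nat.pow_le_pow_right (by norm_num) hk1
      _ = (4 * n) ^ (6 * k) := by rw [← mul_pow, ← pow_mul, ← pow_add]; congr 1; ring
      _ ≤ lam := hl
      _ ≤ K * lam := Nat.le_mul_of_pos_left _ hK
  have hKr : (0 : ℝ) < K := by exact_mod_cast hK
  have hK1 : (1 : ℝ) ≤ K := by exact_mod_cast hK
  have hρr : (1 : ℝ) ≤ ρ := by exact_mod_cast hρ0
  have hU0 : ∀ σ (y : Fin k ↪ Fin n), 0 ≤ Un J q σ y :=
    fun σ y => sum_nonneg fun j _ => ph_nonneg _ _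
  have hU1 : ∀ σ (y : Fin k ↪ Fin n), Un J q σ y ≤ ρ := by
    intro σ y
    calc Un J q σ y ≤ ∑ _j ∈ J, (1 : ℤ) := sum_le_sum fun j _ => ph_le_one _ _
      _ = ρ := by simp [hρ]
  have hdiv0 : (0 : ℝ) ≤ ρ / K := by positivity
  have hdiv1 : (ρ : ℝ) / K ≤ ρ := div_le_self (by positivity) hK1
  obtain ⟨σ, hσ⟩ := balance (fun σ (y : Fin k ↪ Fin n) => (Un J q σ y : ℝ) - ρ / K)
    (Ny * ρ ^ 2) (by
      intro y
      have h1 : (K : ℤ) * ∑ σ, Un J q σ y = ρ * Fintype.card (Equiv.Perm (Fin n)) := by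
        unfold Un
        rw [sum_comm, mul_sum]
        have : ∀ j ∈ J, (K : ℤ) * ∑ σ, ph y (σ * q j) = Fintype.card (Equiv.Perm (Fin n)) := by
          intro j _
          rw [← hKF y, ← Equiv.sum_comp (Equiv.mulRight (q j)) (fun x => ph y x)]
          simp
        rw [sum_congr rfl this]
        simp [hρ]
      have h2 : (K : ℝ) * ∑ σ, (Un J q σ y : ℝ) = ρ * Fintype.card (Equiv.Perm (Fin n)) := by
        exact_mod_cast h1
      rw [sum_sub_distrib]
      simp only [sum_const, card_univ, nsmul_eq_mul]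
      field_simp
      linarith) (by
      intro σ
      calc ∑ y : Fin k ↪ Fin n, ((Un J q σ y : ℝ) - ρ / K) ^ 2
          ≤ ∑ _y : Fin k ↪ Fin n, (ρ : ℝ) ^ 2 := by
            refine sum_le_sum fun y _ => ?_
            have h1 : (0 : ℝ) ≤ Un J q σ y := by exact_mod_cast hU0 σ y
            have h2 : (Un J q σ y : ℝ) ≤ ρ := by exact_mod_cast hU1 σ y
            exact sq_le_sq' (by linarith) (by linarith)
        _ = Ny * ρ ^ 2 := by simp [hNy]) L
  let w : (Fin k ↪ Fin n) → ℤ := fun y => lam - ∑ l ∈ range L, Un J q (σ l) y - r * ph y 1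
  have hw : Cs J ε yy q w := by
    have h1 : ∀ l, Cs J ε yy q (Un (k := k) J q (σ l)) := by
      intro l
      have := Cs.lin J (fun _ => 1) (fun j y => ph y (σ l * q j)) fun j _ => hcs _
      simp only [one_mul] at this
      exact this
    have h2 := Cs.lin (range L) (fun _ => 1) (fun l => Un (k := k) J q (σ l)) fun l _ => h1 l
    have h3 := Cs.const hk hcs lam
    have h4 := hcs 1
    intro y0
    have e2 := h2 y0
    have e3 := h3 y0
    have e4 := h4 y0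
    simp only [one_mul] at e2
    beta_reduce at e3 e4
    simp only [w]
    rw [← e2, ← e4]
    nth_rewrite 2 [← e3]
    rw [mul_sum, ← sum_sub_distrib, ← sum_sub_distrib]
    exact sum_congr rfl fun j _ => by ring
  have hsg : Sg L w := by
    refine hw.sg hε L fun y => ?_
    set s : ℝ := ∑ l ∈ range L, ((Un J q (σ l) y : ℝ) - ρ / K) with hs
    have hs2 : s ^ 2 ≤ L * (Ny * ρ ^ 2) :=
      le_trans (single_le_sum (f := fun y : Fin k ↪ Fin n =>
        (∑ l ∈ range L, ((Un J q (σ l) y : ℝ) - ρ / K)) ^ 2) (fun _ _ => sq_nonneg _)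
        (mem_univ y)) hσ
    have hLr' : (ρ : ℝ) * L + r = K * lam := by exact_mod_cast hLr
    have hwy : (w y : ℝ) = -s - r * ((ph y 1 : ℝ) - 1 / K) := by
      simp only [w, hs]
      push_cast
      rw [sum_sub_distrib]
      simp only [sum_const, card_range, nsmul_eq_mul]
      field_simp
      linarith
    have hLb' : 4 * (ρ : ℝ) ^ 4 * Ny ≤ L := by exact_mod_cast hLb
    have hNy1' : (1 : ℝ) ≤ Ny := by exact_mod_cast hNy1
    have hr' : (r : ℝ) ≤ ρ := by exact_mod_cast hrρ.le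
    have hL0 : (0 : ℝ) ≤ L := by positivity
    have h5 : ρ * |s| ≤ L / 2 := by
      rw [← abs_of_nonneg (show (0 : ℝ) ≤ ρ by positivity), ← abs_mul]
      refine abs_le_of_sq_le_sq' ?_ (by positivity) |> abs_le.2
      nlinarith [mul_le_mul_of_nonneg_left hs2 (sq_nonneg (ρ : ℝ))]
    have h6 : |(ph y 1 : ℝ) - 1 / K| ≤ 1 := by
      have h1 : (0 : ℝ) ≤ ph y 1 := by exact_mod_cast ph_nonneg y 1
      have h2 : (ph y 1 : ℝ) ≤ 1 := by exact_mod_cast ph_le_one y 1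
      have h3 : (0 : ℝ) ≤ 1 / K := by positivity
      have h4 : (1 : ℝ) / K ≤ 1 := by rw [div_le_one hKr]; exact hK1
      rw [abs_le]; constructor <;> linarith
    have h7 : |(w y : ℝ)| ≤ |s| + ρ := by
      rw [hwy]
      refine (abs_sub _ _).trans ?_
      rw [abs_neg, abs_mul, abs_of_nonneg (show (0 : ℝ) ≤ r by positivity)]
      nlinarith [abs_nonneg ((ph y 1 : ℝ) - 1 / K)]
    have h8 : (ρ : ℝ) ^ 2 ≤ L / 2 := by
      have : (ρ : ℝ) ^ 2 ≤ ρ ^ 4 := pow_le_pow_right₀ hρr (by norm_num)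
      nlinarith [pow_nonneg (show (0 : ℝ) ≤ ρ by positivity) 4]
    have h9 : (ρ : ℝ) * |(w y : ℝ)| ≤ L := by nlinarith
    exact_mod_cast h9
  have hfin := (absorb L (fun l => Un J q (σ l)) (fun l => ab_Un hε hcs (σ l)) w hsg).add
    (Rl.nsmul 1 r)
  exact (hfin.congr fun y => by simp only [w]; ring).psca

lemma ab_psca (hk : k ≤ n) {mu : ℕ} (hmu : 1 ≤ mu) {P : Multiset (Equiv.Perm (Fin n))}
    (hP : IsPSCA n k mu P) : Ab (fun _ : Fin k ↪ Fin n => (mu : ℤ)) := by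
  classical
  intro s x hs
  have hP0 : P ≠ 0 := by
    rintro rfl
    have := hP ⟨Fin.castLE hk, Fin.castLE_injective hk⟩
    simp at this
    omega
  obtain ⟨x0, hx0⟩ := Multiset.exists_mem_of_ne_zero hP0
  obtain ⟨Q, rfl⟩ := Multiset.exists_cons_of_mem hx0
  set σ := x * x0⁻¹ with hσ
  have h1 : Rl (fun y : Fin k ↪ Fin n => (mu : ℤ) - ph y x) := by
    refine ⟨Q.map (σ * ·), fun y => ?_⟩
    have h2 := hP (act σ y)
    rw [Multiset.countP_cons] at h2
    have h3 : ph y x = ph (act σ y) x0 := by rw [← ph_mul, hσ]; simp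
    have h4 : ∀ z, Covers (σ * z) y ↔ Covers z (act σ y) := by
      intro z; rw [covers_iff, covers_iff]; rfl
    beta_reduce
    rw [Multiset.countP_map, ← Multiset.countP_eq_card_filter, h3, ← h2]
    simp only [h4]
    unfold ph
    split_ifs <;> simp
  exact (h1.add (Rl.zsmul x (1 + s) (by have := (abs_le.1 hs).1; omega))).congr fun y => by ring

theorem conductor (hk : k ≤ n) {mu : ℕ} (hmu : 1 ≤ mu) (h : ∃ P, IsPSCA n k mu P) (lam : ℕ)
    (hl : (4 * n) ^ k * mu * (mu - 1) ≤ lam) : ∃ P, IsPSCA n k lam P := by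
  obtain ⟨P, hP⟩ := h
  obtain ⟨ι, J, ε, yy, q, hε, hJ, hdec⟩ := decoder hk
  have hcs : ∀ x, Cs J ε yy q (fun y => ph y x) := fun x y0 => hdec x y0
  set L := lam / mu with hL
  set r := lam % mu with hr
  have hLr : mu * L + r = lam := Nat.div_add_mod _ _
  have hr1 : r < mu := Nat.mod_lt _ hmu
  have hb : J.card * r ≤ L := by
    rw [hL, Nat.le_div_iff_mul_le hmu]
    calc J.card * r * mu ≤ (4 * n) ^ k * (mu - 1) * mu :=
          Nat.mul_le_mul_right _ (Nat.mul_le_mul hJ (by omega))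
      _ = (4 * n) ^ k * mu * (mu - 1) := by ring
      _ ≤ lam := hl
  have hsg : Sg L (fun _ : Fin k ↪ Fin n => (r : ℤ)) := by
    refine (Cs.const hk hcs r).sg hε L fun y => ?_
    rw [abs_of_nonneg (by positivity)]
    exact_mod_cast hb
  refine ((absorb L (fun _ _ => (mu : ℤ)) (fun _ => ab_psca hk hmu hP) _ hsg).congr
    fun y => ?_).psca
  simp only [sum_const, card_range, nsmul_eq_mul]
  rw [← hLr]; push_cast; ring

end Pool.Agent.MP_5387a8_co.H26
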